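import Mathlib.Data.Finset.Max
import Mathlib.Data.Finset.Union
import Mathlib.Data.Finset.Prod
import Mathlib.Data.Finset.Interval
import Mathlib.Order.Interval.Finset.Nat
import Mathlib.Data.Real.Basic
import Mathlib.Algebra.Order.BigOperators.Group.Finset
import Mathlib.Tactic.Linarith
import Mathlib.Tactic.Ring

/-!
# Counting first radii (row CNT of M5)

`T a w p`: there is a label of radius `a`, window `w` and precision `p`. The first radius of the
row `R` at the window `w` is the least `a` with `T a w (R + 1)`. Every radius (every window) is the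
first radius of few pairs `(R, w)` in a zone `w + z₁ ≤ a ≤ w + z₂`.
-/

set_option autoImplicit false

namespace Pool.CNT20

open Finset

/-- `a` is the first radius of the row `R` at the window `w`. -/
def Fr (T : ℕ → ℕ → ℕ → Prop) (R w a : ℕ) : Prop :=
  T a w (R + 1) ∧ (a = 0 ∨ ¬ T (a - 1) w (R + 1))

variable {T : ℕ → ℕ → ℕ → Prop}

theorem Fr_unique (hm : ∀ a a' w p, T a w p → a ≤ a' → T a' w p) {R w a a' : ℕ}
    (h : Fr T R w a) (h' : Fr T R w a') : a = a' := by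
  have key : ∀ a a', Fr T R w a → Fr T R w a' → ¬ a < a' := by
    intro a a' h h' hlt
    rcases h'.2 with h1 | h1
    · omega
    · exact h1 (hm a (a' - 1) w (R + 1) h.1 (by omega))
  have h1 := key a a' h h'
  have h2 := key a' a h' h
  omega

/-- The first radius exists as soon as some radius is possible. -/
theorem Fr_exists {R w a : ℕ} (h : T a w (R + 1)) : ∃ a' ≤ a, Fr T R w a' := by
  classical
  have hex : ∃ a, T a w (R + 1) := ⟨a, h⟩
  refine ⟨Nat.find hex, Nat.find_le h, Nat.find_spec hex, ?_⟩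
  rcases Nat.eq_zero_or_pos (Nat.find hex) with h0 | h0
  · exact Or.inl h0
  · exact Or.inr (Nat.find_min hex (by omega))

open Classical in
/-- A radius is the first radius of at most `K + 1` rows, for a given window. -/
theorem Fr_rows {K : ℕ} (hp : ∀ a w p p', T a w p → p' ≤ p → T a w p')
    (hK : ∀ a w p, T (a + 1) w (p + K + 1) → T a w p) {w a : ℕ} (ha : 1 ≤ a) (s : Finset ℕ) :
    (s.filter (fun R => Fr T R w a)).card ≤ K + 1 := by
  rcases (s.filter (fun R => Fr T R w a)).eq_empty_or_nonempty with h0 | h0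
  · rw [h0]
    simp
  set R₀ := (s.filter (fun R => Fr T R w a)).min' h0 with hR₀
  have h1 : R₀ ∈ s.filter (fun R => Fr T R w a) := Finset.min'_mem _ h0
  have h2 : s.filter (fun R => Fr T R w a) ⊆ Finset.Icc R₀ (R₀ + K) := by
    intro R hR
    rw [Finset.mem_Icc]
    refine ⟨Finset.min'_le _ _ hR, ?_⟩
    by_contra hc
    have g1 := (Finset.mem_filter.1 hR).2
    have g0 := (Finset.mem_filter.1 h1).2
    rcases g0.2 with g2 | g2
    · omega
    · refine g2 (hK (a - 1) w (R₀ + 1) ?_)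
      rw [show a - 1 + 1 = a by omega]
      exact hp a w (R + 1) _ g1.1 (by omega)
  refine (Finset.card_le_card h2).trans ?_
  rw [Nat.card_Icc]
  omega

open Classical in
/-- Bad radii. -/
theorem bad_radii {K : ℕ} (hp : ∀ a w p p', T a w p → p' ≤ p → T a w p')
    (hK : ∀ a w p, T (a + 1) w (p + K + 1) → T a w p) (N z₁ z₂ : ℕ) (hz : 1 ≤ z₁)
    (Bad : Finset ℕ) :
    (((range N) ×ˢ (range N)).filter (fun x : ℕ × ℕ =>
      ∃ a ∈ Bad, Fr T x.1 x.2 a ∧ x.2 + z₁ ≤ a ∧ a ≤ x.2 + z₂)).card ≤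
      (K + 1) * (z₂ + 1) * Bad.card := by
  have h1 : ((range N) ×ˢ (range N)).filter (fun x : ℕ × ℕ =>
      ∃ a ∈ Bad, Fr T x.1 x.2 a ∧ x.2 + z₁ ≤ a ∧ a ≤ x.2 + z₂) ⊆
      Bad.biUnion (fun a => if 1 ≤ a then (Finset.Icc (a - z₂) a).biUnion (fun w =>
        ((range N).filter (fun R => Fr T R w a)).image (fun R => (R, w))) else ∅) := by
    rintro ⟨R, w⟩ hx
    obtain ⟨hx1, a, ha, hF, h2, h3⟩ := Finset.mem_filter.1 hx
    obtain ⟨hR, hw⟩ := Finset.mem_product.1 hx1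
    refine Finset.mem_biUnion.2 ⟨a, ha, ?_⟩
    have h2' : w + z₁ ≤ a := h2
    have h3' : a ≤ w + z₂ := h3
    rw [if_pos (show 1 ≤ a by omega)]
    refine Finset.mem_biUnion.2 ⟨w, Finset.mem_Icc.2 ⟨by omega, by omega⟩, ?_⟩
    exact Finset.mem_image.2 ⟨R, Finset.mem_filter.2 ⟨hR, hF⟩, rfl⟩
  refine (Finset.card_le_card h1).trans (Finset.card_biUnion_le.trans ?_)
  have h2 : ∀ a ∈ Bad, (if 1 ≤ a then (Finset.Icc (a - z₂) a).biUnion (fun w =>
        ((range N).filter (fun R => Fr T R w a)).image (fun R => (R, w))) else ∅).card ≤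
        (K + 1) * (z₂ + 1) := by
    intro a _
    split_ifs with h
    · refine Finset.card_biUnion_le.trans ?_
      have h3 : ∀ w ∈ Finset.Icc (a - z₂) a,
          (((range N).filter (fun R => Fr T R w a)).image (fun R => (R, w))).card ≤ K + 1 :=
        fun w _ => Finset.card_image_le.trans (Fr_rows hp hK h _)
      refine (Finset.sum_le_sum h3).trans ?_
      rw [Finset.sum_const, smul_eq_mul, Nat.card_Icc, mul_comm]
      exact Nat.mul_le_mul_left _ (by omega)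
    · simp
  refine (Finset.sum_le_sum h2).trans ?_
  rw [Finset.sum_const, smul_eq_mul, mul_comm]

open Classical in
/-- Bad windows. -/
theorem bad_windows {K : ℕ} (hp : ∀ a w p p', T a w p → p' ≤ p → T a w p')
    (hK : ∀ a w p, T (a + 1) w (p + K + 1) → T a w p) (N z₁ z₂ : ℕ) (hz : 1 ≤ z₁)
    (BadW : Finset ℕ) :
    (((range N) ×ˢ (range N)).filter (fun x : ℕ × ℕ =>
      x.2 ∈ BadW ∧ ∃ a, Fr T x.1 x.2 a ∧ x.2 + z₁ ≤ a ∧ a ≤ x.2 + z₂)).card ≤
      (K + 1) * (z₂ + 1) * BadW.card := by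
  have h1 : ((range N) ×ˢ (range N)).filter (fun x : ℕ × ℕ =>
      x.2 ∈ BadW ∧ ∃ a, Fr T x.1 x.2 a ∧ x.2 + z₁ ≤ a ∧ a ≤ x.2 + z₂) ⊆
      BadW.biUnion (fun w => (Finset.Icc (w + z₁) (w + z₂)).biUnion (fun a =>
        ((range N).filter (fun R => Fr T R w a)).image (fun R => (R, w)))) := by
    rintro ⟨R, w⟩ hx
    obtain ⟨hx1, hw', a, hF, h2, h3⟩ := Finset.mem_filter.1 hx
    obtain ⟨hR, hw⟩ := Finset.mem_product.1 hx1
    refine Finset.mem_biUnion.2 ⟨w, hw', ?_⟩
    refine Finset.mem_biUnion.2 ⟨a, Finset.mem_Icc.2 ⟨h2, h3⟩, ?_⟩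
    exact Finset.mem_image.2 ⟨R, Finset.mem_filter.2 ⟨hR, hF⟩, rfl⟩
  refine (Finset.card_le_card h1).trans (Finset.card_biUnion_le.trans ?_)
  have h2 : ∀ w ∈ BadW, ((Finset.Icc (w + z₁) (w + z₂)).biUnion (fun a =>
        ((range N).filter (fun R => Fr T R w a)).image (fun R => (R, w)))).card ≤
        (K + 1) * (z₂ + 1) := by
    intro w _
    refine Finset.card_biUnion_le.trans ?_
    have h3 : ∀ a ∈ Finset.Icc (w + z₁) (w + z₂),
        (((range N).filter (fun R => Fr T R w a)).image (fun R => (R, w))).card ≤ K + 1 := by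
      intro a ha
      have := Finset.mem_Icc.1 ha
      exact Finset.card_image_le.trans (Fr_rows hp hK (by omega) _)
    refine (Finset.sum_le_sum h3).trans ?_
    rw [Finset.sum_const, smul_eq_mul, Nat.card_Icc, mul_comm]
    exact Nat.mul_le_mul_left _ (by omega)
  refine (Finset.sum_le_sum h2).trans ?_
  rw [Finset.sum_const, smul_eq_mul, mul_comm]

open Classical in
/-- **The union form.** If every failure `(R, w)` of a good row has a bad first radius, or a bad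
window, or a window of the bad set of its row, then outside a set `Ex` of few pairs every good row
has few failures. -/
theorem cnt_union {K : ℕ} (hp : ∀ a w p p', T a w p → p' ≤ p → T a w p')
    (hK : ∀ a w p, T (a + 1) w (p + K + 1) → T a w p) (N z₁ z₂ : ℕ) (hz : 1 ≤ z₁)
    (Bad BadW : Finset ℕ) (Bd : ℕ → Finset ℕ) (Good : ℕ → Prop) (Fail : ℕ → ℕ → Prop) (e : ℝ)
    (hF : ∀ R < N, Good R → ∀ w < N, Fail R w → ∃ a, Fr T R w a ∧ w + z₁ ≤ a ∧ a ≤ w + z₂ ∧
      (a ∈ Bad ∨ w ∈ BadW ∨ w ∈ Bd R))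
    (hBd : ∀ R < N, Good R → ((Bd R).card : ℝ) ≤ e) :
    ∃ Ex : Finset (ℕ × ℕ), Ex.card ≤ (K + 1) * (z₂ + 1) * (Bad.card + BadW.card) ∧
      ∀ R < N, Good R →
        (((range N).filter (fun w => Fail R w ∧ (R, w) ∉ Ex)).card : ℝ) ≤ e := by
  refine ⟨(((range N) ×ˢ (range N)).filter (fun x : ℕ × ℕ =>
      ∃ a ∈ Bad, Fr T x.1 x.2 a ∧ x.2 + z₁ ≤ a ∧ a ≤ x.2 + z₂)) ∪
    (((range N) ×ˢ (range N)).filter (fun x : ℕ × ℕ =>
      x.2 ∈ BadW ∧ ∃ a, Fr T x.1 x.2 a ∧ x.2 + z₁ ≤ a ∧ a ≤ x.2 + z₂)), ?_, ?_⟩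
  · refine (Finset.card_union_le _ _).trans ?_
    rw [Nat.mul_add]
    exact Nat.add_le_add (bad_radii hp hK N z₁ z₂ hz Bad) (bad_windows hp hK N z₁ z₂ hz BadW)
  · intro R hR hG
    refine le_trans ?_ (hBd R hR hG)
    have h1 : (range N).filter (fun w => Fail R w ∧ (R, w) ∉
        (((range N) ×ˢ (range N)).filter (fun x : ℕ × ℕ =>
          ∃ a ∈ Bad, Fr T x.1 x.2 a ∧ x.2 + z₁ ≤ a ∧ a ≤ x.2 + z₂)) ∪
        (((range N) ×ˢ (range N)).filter (fun x : ℕ × ℕ =>
          x.2 ∈ BadW ∧ ∃ a, Fr T x.1 x.2 a ∧ x.2 + z₁ ≤ a ∧ a ≤ x.2 + z₂))) ⊆ Bd R := by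
      intro w hw
      obtain ⟨hw1, hw2, hw3⟩ := Finset.mem_filter.1 hw
      obtain ⟨a, hFr, h2, h3, h4⟩ := hF R hR hG w (mem_range.1 hw1) hw2
      rcases h4 with h4 | h4 | h4
      · exact absurd (Finset.mem_union_left _ (Finset.mem_filter.2
          ⟨Finset.mem_product.2 ⟨mem_range.2 hR, hw1⟩, a, h4, hFr, h2, h3⟩)) hw3
      · exact absurd (Finset.mem_union_right _ (Finset.mem_filter.2
          ⟨Finset.mem_product.2 ⟨mem_range.2 hR, hw1⟩, h4, a, hFr, h2, h3⟩)) hw3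
      · exact h4
    exact_mod_cast Finset.card_le_card h1

end Pool.CNT20
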